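import Pool.Agent.Results.MP_aaa0df_nt.ShortIntervals
import Pool.Agent.Q44.Appr

/-!
# Small split primes: the discriminants given by good rational approximations of real numbers

`N(d)` is the number of the primes below `(log |d|) ^ 2 (log log |d|) ^ 2` which split in the field of discriminant `d`.

(1) For almost every real number `α` and all integers `(u, v) ≠ (0, 0)`: `N(d)` tends to infinity along the negative
fundamental discriminants among the numbers `d = - |u p + v q|`, where `p / q` runs over the convergents of the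
continued fraction of `α`.

(2) For every `B` the discriminants `d = - n` with `n` given by good rational approximations of real numbers and real
points in the sense of `AtApproximations (2 / 3)` have `N(d) > B`: the exceptional real numbers for the convergents have
Hausdorff dimension at most `5 / 6`, and the same for the approximations of other qualities, for points of `ℝ ^ d` and
for the values of polynomials at the denominator and the numerators.

(3) For all `A > 1`, `b ≥ 0` and `ε > 0`, in the sense of `AtApproximations (A / (2 A - 1))`, half of the primes below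
`(log |d|) ^ A (log log |d|) ^ b` split in the field of discriminant `d`, up to a relative error `ε`.
-/

set_option autoImplicit false

namespace Pool.Agent.Results.MP_aaa0df_nt.GoodApproximations

open Finset Filter MeasureTheory
open Pool.Agent.Q44.CF (AtApproximations at_of)
open Pool.Agent.Q21.DW (PS)
open Pool.Agent.Results.MP_aaa0df_nt.ShortIntervals (NegFund splitBelow primesBelow threshold N Half)

open Classical in
/-- from dyadic blocks to initial segments -/
lemma ps_dy {s : ℝ} (hs : 0 ≤ s) {B : ℕ → Prop} (h : ∀ η : ℝ, 0 < η → ∃ x₀ : ℕ, ∀ x : ℕ, x₀ ≤ x →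
    ({n : ℕ | x < n ∧ n ≤ x + x ∧ B n}.ncard : ℝ) ≤ (x : ℝ) ^ (s + η)) : PS s B := by
  intro t ht
  set η : ℝ := (t - s) / 2 with hη
  have hη0 : 0 < η := by rw [hη]; linarith
  obtain ⟨x₀, hx₀⟩ := h η hη0
  refine ⟨(1 + 2 / η) * (x₀ + 1) + 1, fun N hN => ?_⟩
  have hN1 : (1 : ℝ) ≤ N := by exact_mod_cast hN
  have hN0 : (0 : ℝ) < N := by linarith
  have hlog2 : (0 : ℝ) < Real.log 2 := Real.log_pos (by norm_num)
  set L : ℕ := ⌊Real.log N / Real.log 2⌋₊ with hL
  have hp1 : (1 : ℝ) ≤ (N : ℝ) ^ (s + η) := Real.one_le_rpow hN1 (by linarith)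
  have hx₀0 : (0 : ℝ) ≤ x₀ := Nat.cast_nonneg _
  have hone : ∀ i : ℕ, 2 ^ i ≤ N →
      (((Ioc (2 ^ i) (2 ^ i + 2 ^ i)).filter B).card : ℝ) ≤ (x₀ + 1) * (N : ℝ) ^ (s + η) := by
    intro i hi
    have hiR : ((2 ^ i : ℕ) : ℝ) ≤ N := by exact_mod_cast hi
    by_cases hs' : x₀ ≤ 2 ^ i
    · have h1 := hx₀ (2 ^ i) hs'
      have hset : {n : ℕ | 2 ^ i < n ∧ n ≤ 2 ^ i + 2 ^ i ∧ B n} =
          (((Ioc (2 ^ i) (2 ^ i + 2 ^ i)).filter B : Finset ℕ) : Set ℕ) := by
        ext n
        rw [coe_filter, Set.mem_ofPred_eq, Set.mem_ofPred_eq, mem_Ioc, and_assoc]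
      rw [hset, Set.ncard_coe_finset] at h1
      refine h1.trans ((Real.rpow_le_rpow (Nat.cast_nonneg _) hiR (by linarith)).trans ?_)
      nlinarith
    · have h1 : ((Ioc (2 ^ i) (2 ^ i + 2 ^ i)).filter B).card ≤ 2 ^ i :=
        (card_filter_le _ _).trans (by simp)
      have h2 : (((Ioc (2 ^ i) (2 ^ i + 2 ^ i)).filter B).card : ℝ) ≤ x₀ := by
        exact_mod_cast h1.trans (by omega)
      refine h2.trans ?_
      nlinarith
  have hsub : (Icc 1 N).filter B ⊆ insert 1 ((range (L + 1)).biUnion (fun i => if 2 ^ i ≤ N then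
      (Ioc (2 ^ i) (2 ^ i + 2 ^ i)).filter B else ∅)) := by
    intro n hn
    rw [mem_filter, mem_Icc] at hn
    obtain ⟨⟨hn1, hn2⟩, hn3⟩ := hn
    rw [mem_insert]
    by_cases h1 : n = 1
    · exact Or.inl h1
    right
    have hm : 0 < Nat.size (n - 1) := Nat.size_pos.2 (by omega)
    have hlo : 2 ^ (Nat.size (n - 1) - 1) ≤ n - 1 := Nat.lt_size.1 (by omega)
    have hhi : n - 1 < 2 ^ Nat.size (n - 1) := Nat.lt_size_self _
    have hpow : 2 ^ Nat.size (n - 1) = 2 ^ (Nat.size (n - 1) - 1) + 2 ^ (Nat.size (n - 1) - 1) := by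
      rw [← two_mul, ← pow_succ']
      congr 1
      omega
    have hiN : 2 ^ (Nat.size (n - 1) - 1) ≤ N := by omega
    rw [mem_biUnion]
    refine ⟨Nat.size (n - 1) - 1, ?_, ?_⟩
    · rw [mem_range]
      refine Nat.lt_succ_of_le (Nat.le_floor ?_)
      rw [le_div_iff₀ hlog2]
      have h3 : ((2 ^ (Nat.size (n - 1) - 1) : ℕ) : ℝ) ≤ N := by exact_mod_cast hiN
      have h4 := Real.log_le_log (by positivity) h3
      push_cast at h4
      rwa [Real.log_pow] at h4
    · rw [if_pos hiN, mem_filter, mem_Ioc]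
      exact ⟨⟨by omega, by omega⟩, hn3⟩
  have hcard : (((Icc 1 N).filter B).card : ℝ) ≤ (L + 1) * ((x₀ + 1) * (N : ℝ) ^ (s + η)) + 1 := by
    have h1 := (card_le_card hsub).trans (card_insert_le _ _)
    have h2 : (((Icc 1 N).filter B).card : ℝ) ≤
        (∑ i ∈ range (L + 1), (((if 2 ^ i ≤ N then
          (Ioc (2 ^ i) (2 ^ i + 2 ^ i)).filter B else ∅) : Finset ℕ).card : ℝ)) + 1 := by
      have h3 := h1.trans (Nat.add_le_add_right card_biUnion_le 1)
      exact_mod_cast h3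
    refine h2.trans (add_le_add_left ?_ 1)
    calc ∑ i ∈ range (L + 1), (((if 2 ^ i ≤ N then
          (Ioc (2 ^ i) (2 ^ i + 2 ^ i)).filter B else ∅) : Finset ℕ).card : ℝ)
        ≤ ∑ _i ∈ range (L + 1), (x₀ + 1) * (N : ℝ) ^ (s + η) := by
          refine sum_le_sum fun i _ => ?_
          split_ifs with hi
          · exact hone i hi
          · simp only [card_empty, Nat.cast_zero]
            positivity
      _ = (L + 1) * ((x₀ + 1) * (N : ℝ) ^ (s + η)) := by
          rw [sum_const, card_range, nsmul_eq_mul]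
          push_cast
          ring
  have hLb : (L : ℝ) + 1 ≤ (1 + 2 / η) * (N : ℝ) ^ η := by
    have h1 : (L : ℝ) ≤ Real.log N / Real.log 2 :=
      Nat.floor_le (div_nonneg (Real.log_nonneg hN1) hlog2.le)
    have h3 : Real.log N ≤ (N : ℝ) ^ η / η := Real.log_le_rpow_div hN0.le hη0
    have h4 : (1 : ℝ) ≤ (N : ℝ) ^ η := Real.one_le_rpow hN1 hη0.le
    have h5 : Real.log N / Real.log 2 ≤ 2 * Real.log N := by
      rw [div_le_iff₀ hlog2]
      have h6 : (0.6931471803 : ℝ) < Real.log 2 := Real.log_two_gt_d9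
      have := Real.log_nonneg hN1
      nlinarith
    have h7 : 2 * Real.log N ≤ 2 / η * (N : ℝ) ^ η := by
      calc 2 * Real.log N ≤ 2 * ((N : ℝ) ^ η / η) := by linarith
        _ = 2 / η * (N : ℝ) ^ η := by ring
    nlinarith
  have hp0 : (0 : ℝ) ≤ (x₀ + 1) * (N : ℝ) ^ (s + η) := by positivity
  have hpt : (1 : ℝ) ≤ (N : ℝ) ^ t := Real.one_le_rpow hN1 (by linarith)
  calc (((Icc 1 N).filter B).card : ℝ) ≤ (L + 1) * ((x₀ + 1) * (N : ℝ) ^ (s + η)) + 1 := hcard
    _ ≤ ((1 + 2 / η) * (N : ℝ) ^ η) * ((x₀ + 1) * (N : ℝ) ^ (s + η)) + (N : ℝ) ^ t :=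
        add_le_add (mul_le_mul_of_nonneg_right hLb hp0) hpt
    _ = (1 + 2 / η) * (x₀ + 1) * ((N : ℝ) ^ η * (N : ℝ) ^ (s + η)) + (N : ℝ) ^ t := by ring
    _ = (1 + 2 / η) * (x₀ + 1) * (N : ℝ) ^ t + (N : ℝ) ^ t := by
        rw [← Real.rpow_add hN0]
        congr 3
        rw [hη]
        ring
    _ = ((1 + 2 / η) * (x₀ + 1) + 1) * (N : ℝ) ^ t := by ring

lemma log_pow_le (C : ℝ) : ∃ x₁ : ℕ, ∀ x : ℕ, x₁ ≤ x → Real.log x ^ C ≤ (x : ℝ) := by
  have h1 := (isLittleO_log_rpow_rpow_atTop C (one_pos)).bound (one_pos)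
  have h2 := tendsto_natCast_atTop_atTop.eventually (α := ℕ) (β := ℝ) h1
  obtain ⟨x₁, hx₁⟩ := eventually_atTop.1 (h2.and (eventually_ge_atTop 1))
  refine ⟨x₁, fun x hx => ?_⟩
  obtain ⟨h3, h4⟩ := hx₁ x hx
  have hx1 : (1 : ℝ) ≤ x := by exact_mod_cast h4
  rw [one_mul, Real.rpow_one] at h3
  rw [Real.norm_of_nonneg (Real.rpow_nonneg (Real.log_nonneg hx1) _), Real.norm_of_nonneg (by linarith)] at h3
  exact h3

lemma at_half (A b ε : ℝ) (hA : 1 < A) (hb : 0 ≤ b) (hε : 0 < ε) :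
    AtApproximations (A / (2 * A - 1)) (fun n => NegFund (-(n : ℤ)) → Half A b ε (-(n : ℤ))) := by
  have hs : 0 ≤ A / (2 * A - 1) := div_nonneg (by linarith) (by linarith)
  refine at_of (B := fun n => NegFund (-(n : ℤ)) ∧ ¬ Half A b ε (-(n : ℤ))) hs (ps_dy hs fun η hη => ?_)
    (fun n hn => by push Not at hn; exact hn)
  obtain ⟨C, x₀, h⟩ := Pool.Agent.Results.MP_aaa0df_nt.ShortIntervals.result.1 A b 1 ε η hA hb zero_le_one le_rfl hε hη
  obtain ⟨x₁, hx₁⟩ := log_pow_le C
  refine ⟨max x₀ x₁, fun x hx => ?_⟩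
  exact h x x ((le_max_left _ _).trans hx) (hx₁ x ((le_max_right _ _).trans hx)) (by rw [Real.rpow_one])

lemma at_many (B : ℕ) : AtApproximations (2 / 3) (fun n => NegFund (-(n : ℤ)) → B < N (-(n : ℤ))) := by
  have hs : (0 : ℝ) ≤ 2 / 3 := by norm_num
  refine at_of (B := fun n => NegFund (-(n : ℤ)) ∧ N (-(n : ℤ)) ≤ B) hs (ps_dy hs fun η hη => ?_)
    (fun n hn => by push Not at hn; exact hn)
  obtain ⟨C, x₀, h⟩ := Pool.Agent.Results.MP_aaa0df_nt.ShortIntervals.result.2 η B hη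
  obtain ⟨x₁, hx₁⟩ := log_pow_le C
  refine ⟨max x₀ x₁, fun x hx => ?_⟩
  exact h x x ((le_max_left _ _).trans hx) (hx₁ x ((le_max_right _ _).trans hx)) le_rfl

/-- **Small split primes for the discriminants given by continued fractions.** -/
theorem result :
    (∀ᵐ α : ℝ, ∀ u v : ℤ, (u ≠ 0 ∨ v ≠ 0) → ∀ B : ℕ, ∀ᶠ k in atTop,
      NegFund (-((u * (α.convergent k).num + v * (α.convergent k).den).natAbs : ℤ)) →
        B < N (-((u * (α.convergent k).num + v * (α.convergent k).den).natAbs : ℤ))) ∧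
    (∀ B : ℕ, AtApproximations (2 / 3) (fun n => NegFund (-(n : ℤ)) → B < N (-(n : ℤ)))) ∧
    (∀ A b ε : ℝ, 1 < A → 0 ≤ b → 0 < ε →
      AtApproximations (A / (2 * A - 1)) (fun n => NegFund (-(n : ℤ)) → Half A b ε (-(n : ℤ)))) := by
  refine ⟨?_, at_many, at_half⟩
  have h : ∀ᵐ α : ℝ, ∀ B : ℕ, ∀ u v : ℤ, (u ≠ 0 ∨ v ≠ 0) → ∀ᶠ k in atTop,
      NegFund (-((u * (α.convergent k).num + v * (α.convergent k).den).natAbs : ℤ)) →
        B < N (-((u * (α.convergent k).num + v * (α.convergent k).den).natAbs : ℤ)) := by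
    rw [ae_all_iff]
    intro B
    exact (at_many B).almost_all_convergents (by norm_num)
  filter_upwards [h] with α hα u v huv B
  exact hα B u v huv

end Pool.Agent.Results.MP_aaa0df_nt.GoodApproximations
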