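import Pool.Agent.Q56.WL.Thr

/-!
# Half of the small primes split, with square-root error, in ALL of the imaginary quadratic fields `ℚ(√(-m))` with `m` in windows
near the powers `β + w i ^ e` with a non-integral exponent `e > 1`, for almost all `i`

The proof uses the moments of sums of functions of the residues of such integers (`Q56.WL`: Fejér kernels, and van der Corput's
method for the exponential sums over the real points).
-/

set_option autoImplicit false

namespace Pool.Agent.Results.MP_aaa0df_nt.NearPowers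

open Finset

/-- The negative fundamental discriminants (as in the frozen statement). -/
def IsDisc (d : ℤ) : Prop := d < 0 ∧ ((d % 4 = 1 ∧ Squarefree d) ∨ (∃ m : ℤ, d = 4 * m ∧ (m % 4 = 2 ∨ m % 4 = 3) ∧ Squarefree m))

/-- The prime `p` splits in `ℚ(√d)` (as in the frozen statement). -/
def Splits (d : ℤ) (p : ℕ) : Prop := ¬ ((p : ℤ) ∣ d) ∧ ∃ x : ℤ, (4 * (p : ℤ)) ∣ x ^ 2 - d

/-- The prime `p` is inert in `ℚ(√d)`. -/
def Inert (d : ℤ) (p : ℕ) : Prop := ¬ ∃ x : ℤ, (4 * (p : ℤ)) ∣ x ^ 2 - d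

/-- The fields `ℚ(√d)` and `ℚ(√(-m))` are the same: `d` is `-m` times the square of a nonzero rational number. -/
def SameField (d : ℤ) (m : ℕ) : Prop := ∃ u v : ℤ, u ≠ 0 ∧ v ≠ 0 ∧ d * u ^ 2 = -(m : ℤ) * v ^ 2

open Classical in
/-- The number of the primes in `P` with a property. -/
noncomputable def number (P : Finset ℕ) (E : ℕ → Prop) : ℕ := (P.filter E).card

/-- (1) For every integer `C ≠ 0` with `|C| ≤ z ^ A` half of the primes in `P` are such that `C m` is a nonzero square, and half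
are such that `C m` is not a square, up to `|P| ^ (1 / 2) z ^ δ`; (2) half of the primes in `P` split and half are inert in the
field `ℚ(√(-m))`, up to the same error. -/
def GoodSets (δ : ℝ) (A : ℕ) (P : Finset ℕ) (z m : ℕ) : Prop :=
  (∀ C : ℤ, C ≠ 0 → |C| ≤ (z : ℤ) ^ A →
    |(number P (fun p => ((C * m : ℤ) : ZMod p) ≠ 0 ∧ IsSquare ((C * m : ℤ) : ZMod p)) : ℝ) - P.card / 2| ≤ Real.sqrt P.card * (z : ℝ) ^ δ ∧
    |(number P (fun p => ¬ IsSquare ((C * m : ℤ) : ZMod p)) : ℝ) - P.card / 2| ≤ Real.sqrt P.card * (z : ℝ) ^ δ) ∧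
  ∀ d : ℤ, IsDisc d → SameField d m →
    |(number P (Splits d) : ℝ) - P.card / 2| ≤ Real.sqrt P.card * (z : ℝ) ^ δ ∧
    |(number P (Inert d) : ℝ) - P.card / 2| ≤ Real.sqrt P.card * (z : ℝ) ^ δ

/-- The threshold `(log |d|) ^ 2 (log log |d|) ^ 2` of the question. -/
noncomputable def threshold (d : ℤ) : ℝ := Real.log |(d : ℝ)| ^ 2 * Real.log (Real.log |(d : ℝ)|) ^ 2

/-- The number `N(d)` of the question. -/
noncomputable def N (d : ℤ) : ℕ := Set.ncard {p : ℕ | p.Prime ∧ (p : ℝ) < threshold d ∧ Splits d p}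

/-- The number of all primes below the threshold. -/
noncomputable def Y (d : ℤ) : ℕ := Set.ncard {p : ℕ | p.Prime ∧ (p : ℝ) < threshold d}

/-- The discriminant `d` of `ℚ(√(-m))` satisfies `log |d| ≥ κ log x` and `|2 N(d) - Y(d)| ≤ Y(d) ^ (1 / 2 + δ)`. -/
def GoodField (κ δ : ℝ) (x m : ℕ) : Prop :=
  ∀ d : ℤ, IsDisc d → SameField d m → κ * Real.log x ≤ Real.log |(d : ℝ)| ∧ |2 * (N d : ℝ) - Y d| ≤ (Y d : ℝ) ^ (1 / 2 + δ)

open Classical in
/-- The number of the indices `i` in `{1, ..., x}` for which not all nonnegative integers `m` with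
`|m - (β + w * i ^ e)| ≤ W` have the property `E`. -/
noncomputable def exceptions (x : ℕ) (e w β W : ℝ) (E : ℕ → Prop) : ℕ :=
  ((Icc 1 x).filter (fun i : ℕ => ∃ m : ℕ, |(m : ℝ) - (β + w * (i : ℝ) ^ e)| ≤ W ∧ ¬ E m)).card

/-- For every `z` at most `z ^ B` sets of primes up to `z`. -/
structure Sets (B : ℕ) where
  /-- the sets -/
  S : ℕ → Finset (Finset ℕ)
  card : ∀ z, (S z).card ≤ z ^ B
  prime : ∀ z, ∀ P ∈ S z, ∀ p ∈ P, p.Prime ∧ p ≤ z

lemma count_split (d : ℤ) : N d = ((Pool.Agent.TH894.NG.PX (⌈threshold d⌉₊ - 1)).filter (fun p => (open Classical in decide (Splits d p)) = true)).card := by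
  classical
  unfold N
  rw [← Set.ncard_coe_finset]
  congr 1
  ext p
  rw [Set.mem_ofPred_eq, mem_coe, mem_filter, Pool.Agent.TH894.NG.mem_PX, decide_eq_true_iff]
  constructor
  · rintro ⟨h1, h2, h3⟩
    have h4 := Nat.lt_ceil.2 h2
    exact ⟨⟨h1, by omega⟩, h3⟩
  · rintro ⟨⟨h1, h2⟩, h3⟩
    have h4 := h1.pos
    exact ⟨h1, Nat.lt_ceil.1 (by omega), h3⟩

lemma count_all (d : ℤ) : Y d = (Pool.Agent.TH894.NG.PX (⌈threshold d⌉₊ - 1)).card := by
  classical
  unfold Y
  rw [← Set.ncard_coe_finset]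
  congr 1
  ext p
  rw [Set.mem_ofPred_eq, mem_coe, Pool.Agent.TH894.NG.mem_PX]
  constructor
  · rintro ⟨h1, h2⟩
    have h4 := Nat.lt_ceil.2 h2
    exact ⟨h1, by omega⟩
  · rintro ⟨h1, h2⟩
    have h4 := h1.pos
    exact ⟨h1, Nat.lt_ceil.1 (by omega)⟩

lemma goodSets_of {δ : ℝ} {A : ℕ} {P : Finset ℕ} {z m : ℕ} (hz : 1 ≤ z) (ht4 : (4 : ℝ) ≤ (z : ℝ) ^ (δ / 2))
    (hP1 : ∀ p ∈ P, p.Prime)
    (hlaw : ∀ i : ℤ × Bool, i.1 ≠ 0 → |i.1| ≤ (z : ℤ) ^ (A + 1) →
      |(Pool.Agent.TH894.NG.cq P i m : ℝ) - (P.card : ℝ) / 2| ≤ Real.sqrt P.card * (z : ℝ) ^ (δ / 2)) :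
    GoodSets δ A P z m := by
  classical
  have hx0 : (0 : ℝ) < z := by exact_mod_cast hz
  obtain ⟨t, ht⟩ : ∃ t : ℝ, t = (z : ℝ) ^ (δ / 2) := ⟨_, rfl⟩
  have ht2 : (z : ℝ) ^ δ = t * t := by
    rw [ht, ← Real.rpow_add hx0]
    congr 1
    ring
  rw [← ht] at hlaw ht4
  have hs0 : 0 ≤ Real.sqrt (P.card : ℝ) := Real.sqrt_nonneg _
  unfold GoodSets
  rw [ht2]
  constructor
  · intro B hB hBx
    have hBx' : |B| ≤ (z : ℤ) ^ (A + 1) := by
      refine hBx.trans ?_
      have h2 : z ^ A ≤ z ^ (A + 1) := Nat.pow_le_pow_right (by omega) (by omega)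
      exact_mod_cast h2
    have k1 := hlaw (B, true) hB hBx'
    have k2 := hlaw (B, false) hB hBx'
    have e1 : Real.sqrt (P.card : ℝ) * t ≤ Real.sqrt (P.card : ℝ) * (t * t) := by
      apply mul_le_mul_of_nonneg_left _ hs0
      nlinarith
    have c1 : number P (fun p => ((B * m : ℤ) : ZMod p) ≠ 0 ∧ IsSquare ((B * m : ℤ) : ZMod p)) = Pool.Agent.TH894.NG.cq P (B, true) m := by
      unfold number Pool.Agent.TH894.NG.cq Pool.Agent.TH894.NG.Tq
      simp only [if_true]
      congr 1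
      ext p
      simp only [mem_filter, Int.cast_mul, Int.cast_natCast]
    have c2 : number P (fun p => ¬ IsSquare ((B * m : ℤ) : ZMod p)) = Pool.Agent.TH894.NG.cq P (B, false) m := by
      unfold number Pool.Agent.TH894.NG.cq Pool.Agent.TH894.NG.Tq
      simp only [Bool.false_eq_true, if_false]
      congr 1
      ext p
      simp only [mem_filter, Int.cast_mul, Int.cast_natCast]
    rw [c1, c2]
    exact ⟨k1.trans e1, k2.trans e1⟩
  · intro d hd hs
    have hE : ∀ β : Bool, |(Pool.Agent.TH894.NG.cq P (-1, β) m : ℝ) - (P.card : ℝ) / 2| ≤ Real.sqrt P.card * t := by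
      intro β
      refine hlaw (-1, β) (by norm_num) ?_
      show |(-1 : ℤ)| ≤ _
      rw [abs_neg, abs_one]
      exact_mod_cast Nat.one_le_pow _ _ (by omega : 0 < z)
    have hfin : ∀ a : ℝ, |a - (P.card : ℝ) / 2| ≤ 3 * (Real.sqrt P.card * t) + 1 → (P.card = 0 → a = 0) →
        |a - (P.card : ℝ) / 2| ≤ Real.sqrt P.card * (t * t) := by
      intro a ha ha0
      rcases Nat.eq_zero_or_pos P.card with h0 | h0
      · rw [ha0 h0, h0]
        simp
      · have h2 : 1 ≤ Real.sqrt (P.card : ℝ) := by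
          rw [Real.one_le_sqrt]
          exact_mod_cast h0
        have h3 : 4 ≤ Real.sqrt (P.card : ℝ) * t := by nlinarith
        have h4 : Real.sqrt (P.card : ℝ) * t * 1 ≤ Real.sqrt (P.card : ℝ) * t * (t - 3) :=
          mul_le_mul_of_nonneg_left (by linarith) (by linarith)
        have h5 : Real.sqrt (P.card : ℝ) * (t * t) = Real.sqrt (P.card : ℝ) * t * (t - 3) + 3 * (Real.sqrt (P.card : ℝ) * t) := by ring
        linarith
    have k1 := Pool.Agent.TH894.NG.split_of (d := d) (m := m) hd hs P hP1 _ hE true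
    have k2 := Pool.Agent.TH894.NG.split_of (d := d) (m := m) hd hs P hP1 _ hE false
    simp only [if_true, Bool.false_eq_true, if_false] at k1 k2
    have hz : ∀ E : ℕ → Prop, P.card = 0 → (number P E : ℝ) = 0 := by
      intro E h0
      unfold number
      rw [card_eq_zero.1 h0]
      simp
    have c3 : number P (Splits d) = (P.filter (fun p => Pool.Agent.TH894.NG.Sp d p)).card := by
      unfold number
      apply congrArg
      ext p
      simp only [mem_filter]
      exact Iff.rfl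
    have c4 : number P (Inert d) = (P.filter (fun p => Pool.Agent.TH894.NG.In d p)).card := by
      unfold number
      apply congrArg
      ext p
      simp only [mem_filter]
      exact Iff.rfl
    refine ⟨hfin _ ?_ (hz _), hfin _ ?_ (hz _)⟩
    · rw [c3]
      exact k1
    · rw [c4]
      exact k2

/-- Let `e > 1` be not an integer, `w ≠ 0` a real number, `δ > 0`, and let `A`, `V`, `B` be integers.

(1) There are `c > 0` and `y₀` such that for all families `θ` of at most `z ^ B` sets of primes up to `z`, all real `β`, all `x` and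
all `y ≥ y₀` the following holds for all but at most a proportion `1 / y ^ A` of the `i ≤ x`: ALL integers `m ≥ 0` within
`y ^ V` of `β + w i ^ e` satisfy `GoodSets δ A P z m` for all `z` with `y ≤ z ≤ x ^ c` and all sets `P` of the family.

(2) There are `κ > 0` and `x₀` such that for all `x ≥ x₀` and all real `β` with `|β| ≤ exp (x ^ κ)`, for all but at most
`x / (log x) ^ A` of the `i ≤ x`, ALL integers `m ≥ 0` within `(log x) ^ V` of `β + w i ^ e` are such that the discriminant `d` of the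
field `ℚ(√(-m))` satisfies `log |d| ≥ κ log x` and `|2 N(d) - Y(d)| ≤ Y(d) ^ (1 / 2 + δ)`. -/
theorem result (e : ℝ) (he : 1 < e) (hk : ∀ k : ℕ, e ≠ k) (w : ℝ) (hw : w ≠ 0) (δ : ℝ) (hδ : 0 < δ) (A V B : ℕ) :
    (∃ c : ℝ, 0 < c ∧ ∃ y₀ : ℕ, ∀ (θ : Sets B) (β : ℝ) (x y : ℕ), y₀ ≤ y →
      (exceptions x e w β ((y : ℝ) ^ V) (fun m => ∀ z : ℕ, y ≤ z → (z : ℝ) ≤ (x : ℝ) ^ c → ∀ P ∈ θ.S z, GoodSets δ A P z m) : ℝ) ≤
        1 / (y : ℝ) ^ A * x) ∧
    (∃ κ : ℝ, 0 < κ ∧ ∃ x₀ : ℕ, ∀ x : ℕ, x₀ ≤ x → ∀ β : ℝ, |β| ≤ Real.exp ((x : ℝ) ^ κ) →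
      (exceptions x e w β (Real.log x ^ V) (GoodField κ δ x) : ℝ) ≤ 1 / Real.log x ^ A * x) := by
  classical
  constructor
  · obtain ⟨c, hc, y₀, h⟩ := Pool.Agent.Q56.WL.one_dim
      (Pool.Agent.Q56.WL.quad_near he hk hw (show 0 < δ / 2 by positivity) A V B (A + 1))
    have hev : ∀ᶠ x : ℕ in Filter.atTop, (4 : ℝ) ≤ (x : ℝ) ^ (δ / 2) := by
      have h1 : Filter.Tendsto (fun x : ℝ => x ^ (δ / 2)) Filter.atTop Filter.atTop := tendsto_rpow_atTop (by positivity)
      exact (h1.comp tendsto_natCast_atTop_atTop).eventually (Filter.eventually_ge_atTop _)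
    obtain ⟨y₁, h1⟩ := Filter.eventually_atTop.1 hev
    refine ⟨c, hc, y₀ + y₁ + 1, fun θ β x y hy => ?_⟩
    have h2 := h ⟨θ.S, θ.card, θ.prime⟩ β x y (by omega)
    refine le_trans (Nat.cast_le.2 ?_) h2
    refine Pool.Agent.Q56.WL.badIndices_mono (x := x) (e := e) (w := w) (β := β) (W := (y : ℝ) ^ V) ?_
    intro m hm z hyz hzx P hP
    exact goodSets_of (by omega) (h1 z (by omega)) (fun p hp => (θ.prime z P hP p hp).1) (hm z hyz hzx P hP)
  · obtain ⟨κ, hκ, x₀, h⟩ := Pool.Agent.Q56.WL.thr_near he hk hw hδ A V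
    refine ⟨κ, hκ, x₀, fun x hx β hβ => ?_⟩
    refine le_trans (Nat.cast_le.2 ?_) (h x hx β hβ)
    refine Pool.Agent.Q56.WL.badIndices_mono (x := x) (e := e) (w := w) (β := β) (W := Real.log x ^ V) ?_
    intro m hG d hd hs
    obtain ⟨k1, k2⟩ := hG d hd hs
    refine ⟨k1, ?_⟩
    rw [count_split, count_all]
    have hfe : (Pool.Agent.TH894.NG.PX (⌈threshold d⌉₊ - 1)).filter (fun p => (open Classical in decide (Splits d p)) = true) =
        (Pool.Agent.TH894.NG.PX (⌈Pool.Agent.TH894.NG.thr d⌉₊ - 1)).filter (fun p => Pool.Agent.TH894.NG.Sp d p) := by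
      ext p
      rw [mem_filter, mem_filter, decide_eq_true_iff]
      exact Iff.rfl
    rw [hfe]
    exact k2

end Pool.Agent.Results.MP_aaa0df_nt.NearPowers
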