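import Pool.Agent.Q212.Rep

/-!
# Small split primes: every discriminant and its small twists

The results below are about ALL imaginary quadratic discriminants `d`. Two such discriminants `d ≠ e` are called related with
bound `M` if `m d e` is a square for an integer `1 ≤ m ≤ M` (the squarefree kernel of `d e` is at most `M`; for instance
`e` is `5 d`, if `5` does not divide `d`).

(1) Let `W` be an integer and `δ, ε > 0`. If `Y` is large, `(log |d|)`, `(log |e|) ≤ Y ^ (1 - δ)`, and `d ≠ e` are related with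
bound `(log Y) ^ W`, then the number of the primes `p < Y` which split in `ℚ(√d)` plus the number of those which split in
`ℚ(√e)` is at least `(1 / 2 - ε / 2)` times the number of all primes `p < Y`.

(2) Let moreover `η > 0`. In EVERY set `F` of imaginary quadratic discriminants with `log |d| ≤ Y ^ (1 - δ)` any two of which are
related with bound `(log Y) ^ W`, there are at most `1 / η ^ 2` discriminants `d` for which it is not true that half of the primes
`p < Y` split in `ℚ(√d)`, up to the relative error `η`.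

(3) Consequently, for all discriminants `d ≠ e` of sufficiently large absolute value which are related with bound
`(log log |d|) ^ W`: `N(d) + N(e) ≥ (1 / 2 - ε / 2) π`, `π` the number of primes below the smaller of the two thresholds.
So a set of discriminants with bounded `N(d)` contains no two large discriminants which are related with this bound: if the
answer to the question is negative, the exceptional discriminants repel each other. In particular, for every discriminant `d`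
prime to `5` of large absolute value, `d` or `5 d` has many small split primes.

Proof. The sums of `(d / p)` for the `d ∈ F` are nearly orthogonal by the theorem of Siegel and Walfisz; Bessel's inequality.
-/

set_option autoImplicit false

namespace Pool.Agent.Results.MP_aaa0df_nt.RelatedDiscriminants

open Finset Filter

/-- the fundamental discriminants `d < 0`, that is, the discriminants of the imaginary quadratic
fields (as in the frozen statement) -/
def NegFund (d : ℤ) : Prop := d < 0 ∧ ((d % 4 = 1 ∧ Squarefree d) ∨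
  ∃ m : ℤ, d = 4 * m ∧ (m % 4 = 2 ∨ m % 4 = 3) ∧ Squarefree m)

/-- the number of the primes `p < Y` which split in the field of discriminant `d` (`p` does not divide `d` and `d` is a
square modulo `4 p`, as in the frozen statement) -/
noncomputable def splitBelow (Y : ℝ) (d : ℤ) : ℕ := Set.ncard {p : ℕ | p.Prime ∧ (p : ℝ) < Y ∧
  ¬ (p : ℤ) ∣ d ∧ ∃ x : ℤ, (4 * (p : ℤ)) ∣ x ^ 2 - d}

/-- the number of all primes `p < Y` -/
noncomputable def primesBelow (Y : ℝ) : ℕ := Set.ncard {p : ℕ | p.Prime ∧ (p : ℝ) < Y}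

/-- the threshold `(log |d|) ^ 2 (log log |d|) ^ 2` of the question -/
noncomputable def threshold (d : ℤ) : ℝ :=
  Real.log |(d : ℝ)| ^ 2 * Real.log (Real.log |(d : ℝ)|) ^ 2

/-- `N(d)` of the question -/
noncomputable def N (d : ℤ) : ℕ := splitBelow (threshold d) d

/-- `m d e` is a square for an integer `1 ≤ m ≤ M` -/
def Related (M : ℝ) (d e : ℤ) : Prop := ∃ m : ℕ, 1 ≤ m ∧ (m : ℝ) ≤ M ∧ IsSquare ((m : ℤ) * (d * e))

open Pool.Agent.H568.SP Pool.Agent.Q212.Rep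

lemma isSquare_of_mul {k x : ℤ} (hk : k ≠ 0) (h : IsSquare (k * k * x)) : IsSquare x := by
  obtain ⟨s, hs⟩ := h
  have h1 : k ^ 2 ∣ s ^ 2 := ⟨x, by rw [sq, sq, ← hs]⟩
  obtain ⟨r, hr⟩ := (Int.pow_dvd_pow_iff two_ne_zero).1 h1
  refine ⟨r, ?_⟩
  have h2 : k * k * x = k * k * (r * r) := by rw [hs, hr]; ring
  exact mul_left_cancel₀ (mul_ne_zero hk hk) h2

/-- the squarefree kernel of a discriminant -/
lemma kernel {d : ℤ} (h : NegFund d) : ∃ a u : ℤ, Squarefree a ∧ a < 0 ∧ d = u * a ∧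
    ((u = 1 ∧ a % 4 = 1) ∨ (u = 4 ∧ (a % 4 = 2 ∨ a % 4 = 3))) := by
  obtain ⟨h0, ⟨h1, h2⟩ | ⟨m, h1, h2, h3⟩⟩ := h
  · exact ⟨d, 1, h2, h0, by ring, Or.inl ⟨rfl, h1⟩⟩
  · exact ⟨m, 4, h3, by omega, h1, Or.inr ⟨rfl, h2⟩⟩

lemma eq_of_square {d e : ℤ} (hd : NegFund d) (he : NegFund e) (h : IsSquare (d * e)) : d = e := by
  obtain ⟨a, u, ha, ha0, hda, hu⟩ := kernel hd
  obtain ⟨b, v, hb, hb0, heb, hv⟩ := kernel he
  have h1 : IsSquare (a * b) := by
    rcases hu with ⟨rfl, -⟩ | ⟨rfl, -⟩ <;> rcases hv with ⟨rfl, -⟩ | ⟨rfl, -⟩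
    · rw [hda, heb] at h
      simpa using h
    · apply isSquare_of_mul (k := 2) (by norm_num)
      rw [hda, heb] at h
      convert h using 1
      ring
    · apply isSquare_of_mul (k := 2) (by norm_num)
      rw [hda, heb] at h
      convert h using 1
      ring
    · apply isSquare_of_mul (k := 4) (by norm_num)
      rw [hda, heb] at h
      convert h using 1
      ring
  obtain ⟨s, hs⟩ := h1
  have h2 : a ∣ s ^ 2 := ⟨b, by rw [sq, ← hs]⟩
  obtain ⟨t, ht⟩ := (ha.dvd_pow_iff_dvd two_ne_zero).1 h2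
  have h3 : b = a * (t * t) := by
    have h4 : a * b = a * (a * (t * t)) := by rw [hs, ht]; ring
    exact mul_left_cancel₀ ha0.ne h4
  have h5 : IsUnit t := hb t ⟨a, by rw [h3]; ring⟩
  have h6 : t * t = 1 := by
    rcases Int.isUnit_iff.1 h5 with h | h <;> rw [h] <;> norm_num
  have hab : b = a := by rw [h3, h6, mul_one]
  rw [hda, heb, hab]
  rcases hu with ⟨rfl, h7⟩ | ⟨rfl, h7⟩ <;> rcases hv with ⟨rfl, h8⟩ | ⟨rfl, h8⟩
  · rfl
  · rw [hab] at h8; omega
  · rw [hab] at h8; omega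
  · rfl

/-- related discriminants have comparable absolute values -/
lemma size {d e : ℤ} (hd : NegFund d) (he0 : e < 0) {m : ℕ} (hm : 1 ≤ m) (h : IsSquare ((m : ℤ) * (d * e))) :
    |(d : ℝ)| ≤ 16 * m * |(e : ℝ)| := by
  obtain ⟨a, u, ha, ha0, hda, hu⟩ := kernel hd
  obtain ⟨s, hs⟩ := h
  have hu1 : 1 ≤ u ∧ u ≤ 4 := by rcases hu with ⟨rfl, -⟩ | ⟨rfl, -⟩ <;> omega
  have h2 : a ∣ s ^ 2 := ⟨m * (u * e), by rw [sq, ← hs, hda]; ring⟩
  obtain ⟨t, ht⟩ := (ha.dvd_pow_iff_dvd two_ne_zero).1 h2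
  have h3 : m * (u * e) = a * (t * t) := by
    have h4 : a * (m * (u * e)) = a * (a * (t * t)) := by
      calc a * (m * (u * e)) = m * (d * e) := by rw [hda]; ring
        _ = s * s := hs
        _ = _ := by rw [ht]; ring
    exact mul_left_cancel₀ ha0.ne h4
  have hmz : (1 : ℤ) ≤ m := by exact_mod_cast hm
  have ht0 : t ≠ 0 := by
    rintro rfl
    rw [mul_zero, mul_zero] at h3
    have : (m : ℤ) * (u * e) < 0 := by
      have h5 : u * e < 0 := mul_neg_of_pos_of_neg (by omega) he0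
      exact mul_neg_of_pos_of_neg (by omega) h5
    omega
  have h6 : |a| ≤ m * (u * |e|) := by
    have h7 : |a| * (|t| * |t|) = m * (u * |e|) := by
      have := congrArg abs h3
      rw [abs_mul, abs_mul, abs_mul, abs_mul, abs_of_nonneg (by omega : (0 : ℤ) ≤ m),
        abs_of_nonneg (by omega : (0 : ℤ) ≤ u)] at this
      exact this.symm
    have h8 : 1 ≤ |t| := Int.one_le_abs ht0
    have h9 : 0 ≤ |a| := abs_nonneg a
    rw [← h7]
    nlinarith [mul_le_mul h8 h8 zero_le_one (by omega)]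
  have h10 : |d| ≤ 16 * m * |e| := by
    have h11 : |d| = u * |a| := by rw [hda, abs_mul, abs_of_nonneg (by omega : (0 : ℤ) ≤ u)]
    rw [h11]
    have h12 : 0 ≤ |e| := abs_nonneg e
    have h13 : u * |a| ≤ u * (m * (u * |e|)) := mul_le_mul_of_nonneg_left h6 (by omega)
    have h14 : u * u ≤ 16 := by nlinarith
    calc u * |a| ≤ u * (m * (u * |e|)) := h13
      _ = u * u * (m * |e|) := by ring
      _ ≤ 16 * (m * |e|) := mul_le_mul_of_nonneg_right h14 (by positivity)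
      _ = _ := by ring
  have h15 : ((|d| : ℤ) : ℝ) ≤ ((16 * m * |e| : ℤ) : ℝ) := by exact_mod_cast h10
  push_cast at h15
  exact h15

lemma mod_four {d : ℤ} (h : NegFund d) : (d % 4 = 0 ∨ d % 4 = 1) ∧ d ≠ 0 := by
  obtain ⟨h0, h | ⟨m, h, -, -⟩⟩ := h
  · exact ⟨Or.inr h.1, by omega⟩
  · exact ⟨Or.inl (by omega), by omega⟩

lemma one_le_abs {d : ℤ} (h : d ≠ 0) : (1 : ℝ) ≤ |(d : ℝ)| := by
  have : (1 : ℤ) ≤ |d| := Int.one_le_abs h
  have h2 : ((1 : ℤ) : ℝ) ≤ ((|d| : ℤ) : ℝ) := by exact_mod_cast this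
  push_cast at h2
  exact h2

lemma primesBelow_eq {Y : ℝ} (hY2 : 2 < Y) : (primesBelow Y : ℝ) = (PPf Y).card + 1 := by
  classical
  unfold primesBelow
  have hall : {p : ℕ | p.Prime ∧ (p : ℝ) < Y} = ((insert 2 (PPf Y) : Finset ℕ) : Set ℕ) := by
    ext p
    rw [Set.mem_ofPred_eq, mem_coe, mem_insert, mem_PPf]
    constructor
    · rintro ⟨h1, h2⟩
      by_cases h : p = 2
      · exact Or.inl h
      · exact Or.inr ⟨h2, h1, h⟩
    · rintro (rfl | ⟨h1, h2, _⟩)
      · exact ⟨Nat.prime_two, by exact_mod_cast hY2⟩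
      · exact ⟨h2, h1⟩
  rw [hall, Set.ncard_coe_finset, card_insert_of_notMem]
  · push_cast
    ring
  · rw [mem_PPf]
    simp

/-- near orthogonality -/
theorem ortho (W : ℕ) (δ ε : ℝ) (hδ : 0 < δ) (hε : 0 < ε) : ∀ᶠ Y : ℝ in atTop, ∀ d e : ℤ,
    NegFund d → NegFund e → d ≠ e → Real.log |(d : ℝ)| ≤ Y ^ (1 - δ) → Real.log |(e : ℝ)| ≤ Y ^ (1 - δ) →
    Related (Real.log Y ^ W) d e →
    |∑ p ∈ PPf Y, ((jacobiSym d p : ℤ) : ℝ) * ((jacobiSym e p : ℤ) : ℝ)| ≤ ε * (PPf Y).card := by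
  have hδ' : 0 < min δ (1 / 2) := lt_min hδ (by norm_num)
  have e1 : ∀ᶠ Y : ℝ in atTop, Real.log Y ^ W ≤ Y ^ (1 / 2 : ℝ) := by
    have h := (isLittleO_log_rpow_rpow_atTop (W : ℝ) (show (0 : ℝ) < 1 / 2 by norm_num)).def
      (show (0 : ℝ) < 1 by norm_num)
    filter_upwards [h, eventually_ge_atTop 1] with Y hY hY1
    rw [Real.norm_of_nonneg (Real.rpow_nonneg (Real.log_nonneg hY1) _), Real.norm_of_nonneg (by positivity),
      one_mul, Real.rpow_natCast] at hY
    exact hY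
  filter_upwards [sw W (ε / 2) (by positivity), small (min δ (1 / 2)) (ε / 12) hδ' (by positivity), e1,
    eventually_ge_atTop (1 : ℝ)] with Y h1 h2 h3 h4
  intro d e hd he hne hld hle hrel
  obtain ⟨m, hm1, hm2, hm3⟩ := hrel
  obtain ⟨-, hd0⟩ := mod_four hd
  obtain ⟨-, he0⟩ := mod_four he
  have hm0 : (m : ℤ) ≠ 0 := by exact_mod_cast (by omega : m ≠ 0)
  have hmr : (1 : ℝ) ≤ m := by exact_mod_cast hm1
  have hns : ¬ IsSquare (m : ℤ) := by
    rintro ⟨k, hk⟩
    apply hne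
    apply eq_of_square hd he
    have hk0 : k ≠ 0 := by
      rintro rfl
      simp at hk
      omega
    apply isSquare_of_mul hk0
    rw [← hk]
    exact hm3
  have h5 := h1 (m : ℤ) hns (by
    push_cast
    rw [abs_of_nonneg (by linarith)]
    exact hm2)
  have h6 := pair (PPf Y) (fun p hp => (mem_PPf.1 hp).2.1) (m : ℤ) d e
    (mul_ne_zero hm0 (mul_ne_zero hd0 he0)) hm3
  have h7 : Real.log |(((m : ℤ) * (d * e) : ℤ) : ℝ)| ≤ 3 * Y ^ (1 - min δ (1 / 2)) := by
    push_cast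
    rw [abs_mul, abs_mul, abs_of_nonneg (by linarith : (0 : ℝ) ≤ m)]
    have a1 := one_le_abs hd0
    have a2 := one_le_abs he0
    rw [Real.log_mul (by linarith) (by positivity), Real.log_mul (by linarith) (by linarith)]
    have b1 : Y ^ (1 - δ) ≤ Y ^ (1 - min δ (1 / 2)) :=
      Real.rpow_le_rpow_of_exponent_le h4 (by linarith [min_le_left δ (1 / 2)])
    have b2 : Real.log m ≤ Y ^ (1 - min δ (1 / 2)) := by
      calc Real.log m ≤ m := (Real.log_le_sub_one_of_pos (by linarith)).trans (by linarith)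
        _ ≤ Y ^ (1 / 2 : ℝ) := hm2.trans h3
        _ ≤ _ := Real.rpow_le_rpow_of_exponent_le h4 (by linarith [min_le_right δ (1 / 2)])
    linarith
  have h8 : |∑ p ∈ PPf Y, ((jacobiSym d p : ℤ) : ℝ) * ((jacobiSym e p : ℤ) : ℝ)| ≤
      |∑ p ∈ PPf Y, ((jacobiSym d p : ℤ) : ℝ) * ((jacobiSym e p : ℤ) : ℝ) -
        ∑ p ∈ PPf Y, ((jacobiSym (m : ℤ) p : ℤ) : ℝ)| + |∑ p ∈ PPf Y, ((jacobiSym (m : ℤ) p : ℤ) : ℝ)| := by
    have := abs_add_le (∑ p ∈ PPf Y, ((jacobiSym d p : ℤ) : ℝ) * ((jacobiSym e p : ℤ) : ℝ) -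
        ∑ p ∈ PPf Y, ((jacobiSym (m : ℤ) p : ℤ) : ℝ)) (∑ p ∈ PPf Y, ((jacobiSym (m : ℤ) p : ℤ) : ℝ))
    rwa [sub_add_cancel] at this
  linarith

/-- the number of split primes in terms of the sum -/
theorem half_sum (δ ε : ℝ) (hδ : 0 < δ) (hε : 0 < ε) : ∀ᶠ Y : ℝ in atTop, ∀ d : ℤ,
    NegFund d → Real.log |(d : ℝ)| ≤ Y ^ (1 - δ) →
    |2 * (splitBelow Y d : ℝ) - primesBelow Y - ∑ p ∈ PPf Y, ((jacobiSym d p : ℤ) : ℝ)| ≤
      ε * (PPf Y).card := by
  filter_upwards [small δ (ε / 4) hδ (by positivity), small 1 (ε / 2) one_pos (by positivity),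
    eventually_gt_atTop (2 : ℝ)] with Y h1 h2 h3
  intro d hd hld
  obtain ⟨hm, hd0⟩ := mod_four hd
  have h4 := split_sum d hm hd0 h3
  have h5 : |2 * (splitBelow Y d : ℝ) - primesBelow Y - ∑ p ∈ PPf Y, ((jacobiSym d p : ℤ) : ℝ)| ≤
      2 * Real.log |(d : ℝ)| + 1 := h4
  refine h5.trans ?_
  rw [sub_self, Real.rpow_zero] at h2
  linarith

/-- (1) -/
theorem part1 (W : ℕ) (δ ε : ℝ) (hδ : 0 < δ) (hε : 0 < ε) : ∀ᶠ Y : ℝ in atTop, ∀ d e : ℤ,
    NegFund d → NegFund e → d ≠ e → Real.log |(d : ℝ)| ≤ Y ^ (1 - δ) → Real.log |(e : ℝ)| ≤ Y ^ (1 - δ) →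
    Related (Real.log Y ^ W) d e →
    (1 - ε) * primesBelow Y ≤ 2 * ((splitBelow Y d : ℝ) + splitBelow Y e) := by
  filter_upwards [ortho W δ (ε / 8) hδ (by positivity), half_sum δ (ε / 8) hδ (by positivity),
    small δ (ε / 16) hδ (by positivity), small 1 (ε / 2) one_pos (by positivity),
    eventually_gt_atTop (2 : ℝ)] with Y h1 h2 h3 h3' h4
  intro d e hd he hne hld hle hrel
  have h5 := abs_le.1 (h1 d e hd he hne hld hle hrel)
  have h6 := abs_le.1 (h2 d hd hld)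
  have h7 := abs_le.1 (h2 e he hle)
  rw [primesBelow_eq h4] at h6 h7 ⊢
  rw [sub_self, Real.rpow_zero] at h3'
  obtain ⟨-, hd0⟩ := mod_four hd
  obtain ⟨-, he0⟩ := mod_four he
  -- for every `p` : `-1 - (d/p)(e/p) ≤ (d/p) + (e/p)`, up to the divisors
  have h8 : -((PPf Y).card : ℝ) - ∑ p ∈ PPf Y, ((jacobiSym d p : ℤ) : ℝ) * ((jacobiSym e p : ℤ) : ℝ) ≤
      ∑ p ∈ PPf Y, ((jacobiSym d p : ℤ) : ℝ) + ∑ p ∈ PPf Y, ((jacobiSym e p : ℤ) : ℝ) := by
    have h9 : ((PPf Y).card : ℝ) = ∑ _p ∈ PPf Y, (1 : ℝ) := by simp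
    rw [h9, ← sum_neg_distrib, ← sum_sub_distrib, ← sum_add_distrib]
    apply sum_le_sum
    intro p _
    rcases jacobiSym.trichotomy d p with h | h | h <;> rcases jacobiSym.trichotomy e p with h' | h' | h' <;>
      rw [h, h'] <;> norm_num
  have h10 : (0 : ℝ) ≤ (PPf Y).card := Nat.cast_nonneg _
  nlinarith

/-- (2) -/
theorem part2 (W : ℕ) (δ η : ℝ) (hδ : 0 < δ) (hη : 0 < η) : ∀ᶠ Y : ℝ in atTop, ∀ F : Finset ℤ,
    (∀ d ∈ F, NegFund d ∧ Real.log |(d : ℝ)| ≤ Y ^ (1 - δ)) →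
    (∀ d ∈ F, ∀ e ∈ F, d ≠ e → Related (Real.log Y ^ W) d e) →
    (∀ d ∈ F, ¬ |2 * (splitBelow Y d : ℝ) - primesBelow Y| ≤ η * primesBelow Y) →
    η ^ 2 * F.card ≤ 1 := by
  classical
  obtain ⟨k, hk⟩ : ∃ k : ℕ, k = ⌊1 / η ^ 2⌋₊ + 1 := ⟨_, rfl⟩
  have hk1 : 1 / η ^ 2 < k := by rw [hk]; push_cast; exact Nat.lt_floor_add_one _
  have hk0 : (0 : ℝ) < k := lt_trans (by positivity) hk1
  have hkη : 1 < η ^ 2 * k := by
    rw [div_lt_iff₀ (by positivity)] at hk1
    linarith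
  -- `ξ < η` with `ξ² k > 1`
  obtain ⟨ξ, hξ0, hξη, hξk⟩ : ∃ ξ : ℝ, 0 < ξ ∧ ξ < η ∧ 1 < ξ ^ 2 * k := by
    have hc : Continuous fun ξ : ℝ => ξ ^ 2 * (k : ℝ) := by fun_prop
    have h1 : ∀ᶠ ξ in nhds η, 1 < ξ ^ 2 * (k : ℝ) := hc.continuousAt.eventually (lt_mem_nhds hkη)
    have h2 : ∀ᶠ ξ in nhds η, 0 < ξ := lt_mem_nhds hη
    have h3 := (h1.and h2).filter_mono (nhdsWithin_le_nhds (s := Set.Iio η))
    obtain ⟨ξ, h4, h5⟩ := (h3.and self_mem_nhdsWithin).exists
    exact ⟨ξ, h4.2, h5, h4.1⟩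
  obtain ⟨ε, hε⟩ : ∃ ε : ℝ, ε = (ξ ^ 2 * k - 1) / (2 * k) := ⟨_, rfl⟩
  have hε0 : 0 < ε := by
    rw [hε]
    apply div_pos (by linarith) (by positivity)
  have hεk : 1 + ε * k < ξ ^ 2 * k := by
    rw [hε]
    have : (ξ ^ 2 * k - 1) / (2 * k) * k = (ξ ^ 2 * k - 1) / 2 := by field_simp
    rw [this]
    linarith
  filter_upwards [ortho W δ ε hδ hε0, half_sum δ (η - ξ) hδ (by linarith), eventually_gt_atTop (3 : ℝ),
    small 1 1 one_pos one_pos] with Y h1 h2 h3 h4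
  intro F hF hrel hbad
  by_contra hcon
  push Not at hcon
  have hFk : k ≤ F.card := by
    have h5 : 1 / η ^ 2 < F.card := by
      rw [div_lt_iff₀ (by positivity)]
      linarith
    have h6 : ⌊1 / η ^ 2⌋₊ < F.card := (Nat.floor_lt (by positivity)).2 h5
    omega
  obtain ⟨G, hGF, hGk⟩ := exists_subset_card_eq hFk
  rw [sub_self, Real.rpow_zero, one_mul] at h4
  have hP : 0 < (PPf Y).card := by
    have : (0 : ℝ) < (PPf Y).card := by linarith
    exact_mod_cast this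
  have key := bessel (PPf Y) G (fun d p => ((jacobiSym d p : ℤ) : ℝ)) ξ ε hξ0.le
    (fun d _ p _ => jac_abs_le _ _)
    (fun d hd e he hne => h1 d e (hF d (hGF hd)).1 (hF e (hGF he)).1 hne (hF d (hGF hd)).2 (hF e (hGF he)).2
      (hrel d (hGF hd) e (hGF he) hne))
    (fun d hd => by
      have h5 := h2 d (hF d (hGF hd)).1 (hF d (hGF hd)).2
      have h6 := hbad d (hGF hd)
      push Not at h6
      rw [primesBelow_eq (by linarith)] at h5 h6
      have h7 : |2 * (splitBelow Y d : ℝ) - ((PPf Y).card + 1)| ≤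
          |2 * (splitBelow Y d : ℝ) - ((PPf Y).card + 1) - ∑ p ∈ PPf Y, ((jacobiSym d p : ℤ) : ℝ)| +
            |∑ p ∈ PPf Y, ((jacobiSym d p : ℤ) : ℝ)| := by
        have := abs_add_le (2 * (splitBelow Y d : ℝ) - ((PPf Y).card + 1) -
          ∑ p ∈ PPf Y, ((jacobiSym d p : ℤ) : ℝ)) (∑ p ∈ PPf Y, ((jacobiSym d p : ℤ) : ℝ))
        rwa [sub_add_cancel] at this
      have h8 : (0 : ℝ) < (PPf Y).card := by exact_mod_cast hP
      nlinarith)
    hP (by rw [hGk]; exact_mod_cast hk0) hε0.le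
  rw [hGk] at key
  linarith

/-- (3) -/
theorem part3 (W : ℕ) (ε : ℝ) (hε : 0 < ε) : ∃ D₀ : ℝ, ∀ d e : ℤ, NegFund d → NegFund e → d ≠ e →
    D₀ ≤ |(d : ℝ)| → D₀ ≤ |(e : ℝ)| → Related (Real.log (Real.log |(d : ℝ)|) ^ W) d e →
    (1 - ε) * primesBelow (min (threshold d) (threshold e)) ≤ 2 * ((N d : ℝ) + N e) := by
  obtain ⟨Y₀, hY₀⟩ := eventually_atTop.1 (part1 W (1 / 4) ε (by norm_num) hε)
  -- a lower bound for the size
  have e1 : ∀ᶠ x : ℝ in atTop, Y₀ ≤ Real.log x ^ 2 ∧ Real.exp 1 ≤ Real.log x ∧ 16 ≤ Real.log x ∧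
      Real.log (Real.log x ^ 2) ^ W ≤ Real.log x / 4 := by
    have h1 := Real.tendsto_log_atTop
    have h2 : ∀ᶠ t : ℝ in atTop, Real.log (t ^ 2) ^ W ≤ t / 4 := by
      have h := (isLittleO_log_rpow_rpow_atTop (W : ℝ) (show (0 : ℝ) < 1 by norm_num)).def
        (show (0 : ℝ) < 1 / (4 * 2 ^ W) by positivity)
      filter_upwards [h, eventually_ge_atTop 1] with t ht ht1
      rw [Real.norm_of_nonneg (Real.rpow_nonneg (Real.log_nonneg ht1) _), Real.norm_of_nonneg (by positivity),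
        Real.rpow_natCast, Real.rpow_one] at ht
      rw [Real.log_pow]
      push_cast
      rw [mul_pow]
      calc (2 : ℝ) ^ W * Real.log t ^ W ≤ 2 ^ W * (1 / (4 * 2 ^ W) * t) := by gcongr
        _ = t / 4 := by field_simp
    filter_upwards [((tendsto_pow_atTop (two_ne_zero)).comp h1).eventually_ge_atTop Y₀,
      h1.eventually_ge_atTop (Real.exp 1), h1.eventually_ge_atTop 16, h1.eventually h2] with x a1 a2 a3 a4
    exact ⟨a1, a2, a3, a4⟩
  obtain ⟨D₀, hD₀⟩ := eventually_atTop.1 e1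
  refine ⟨D₀, fun d e hd he hne hdD heD hrel => ?_⟩
  obtain ⟨a1, a2, a3, a4⟩ := hD₀ _ hdD
  obtain ⟨b1, b2, b3, b4⟩ := hD₀ _ heD
  obtain ⟨m, hm1, hm2, hm3⟩ := hrel
  obtain ⟨-, hd0⟩ := mod_four hd
  obtain ⟨-, he0⟩ := mod_four he
  obtain ⟨s, hs⟩ : ∃ s : ℝ, s = Real.log |(d : ℝ)| := ⟨_, rfl⟩
  obtain ⟨t, ht⟩ : ∃ t : ℝ, t = Real.log |(e : ℝ)| := ⟨_, rfl⟩
  rw [← hs] at a1 a2 a3 a4 hm2
  rw [← ht] at b1 b2 b3 b4
  have hmr : (1 : ℝ) ≤ m := by exact_mod_cast hm1
  have hle : ∀ x : ℝ, Real.exp 1 ≤ x → 1 ≤ Real.log x := fun x hx => by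
    rwa [Real.le_log_iff_exp_le (lt_of_lt_of_le (Real.exp_pos 1) hx)]
  have hms : (m : ℝ) ≤ s / 4 := by
    refine hm2.trans (le_trans ?_ a4)
    apply pow_le_pow_left₀ (by linarith [hle s a2])
    apply Real.log_le_log (by linarith)
    nlinarith
  have hlog16 : ∀ x : ℝ, 16 ≤ x → Real.log x ≤ x / 4 := by
    intro x hx
    have h1 := Real.log_le_sub_one_of_pos (show 0 < x / 16 by linarith)
    have h2 : Real.log x = Real.log (x / 16) + Real.log 16 := by
      rw [← Real.log_mul (by positivity) (by norm_num)]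
      congr 1
      ring
    have h3 : Real.log 16 ≤ 3 := by
      have : Real.log 16 = 4 * Real.log 2 := by
        rw [show (16 : ℝ) = 2 ^ 4 by norm_num, Real.log_pow]
        norm_num
      have := Real.log_two_lt_d9
      linarith
    linarith
  -- comparison of `s` and `t`
  have hlm : Real.log (16 * m) ≤ s / 2 := by
    have h1 : Real.log (16 * m) = Real.log 16 + Real.log m := Real.log_mul (by norm_num) (by linarith)
    have h3 : Real.log 16 ≤ 3 := by
      have : Real.log 16 = 4 * Real.log 2 := by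
        rw [show (16 : ℝ) = 2 ^ 4 by norm_num, Real.log_pow]
        norm_num
      have := Real.log_two_lt_d9
      linarith
    have h4 : Real.log m ≤ m - 1 := Real.log_le_sub_one_of_pos (by linarith)
    linarith
  have hst : s ≤ 2 * t := by
    have h1 := size hd he.1 hm1 hm3
    have h2 : s ≤ Real.log (16 * m) + t := by
      rw [hs, ht, ← Real.log_mul (by positivity) (by linarith [one_le_abs he0])]
      exact Real.log_le_log (by linarith [one_le_abs hd0]) h1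
    linarith
  have hts : t ≤ 2 * s := by
    have hm3' : IsSquare ((m : ℤ) * (e * d)) := by rw [mul_comm e d]; exact hm3
    have h1 := size he hd.1 hm1 hm3'
    have h2 : t ≤ Real.log (16 * m) + s := by
      rw [hs, ht, ← Real.log_mul (by positivity) (by linarith [one_le_abs hd0])]
      exact Real.log_le_log (by linarith [one_le_abs he0]) h1
    linarith
  obtain ⟨Y, hY⟩ : ∃ Y : ℝ, Y = min (threshold d) (threshold e) := ⟨_, rfl⟩
  have hYd : Y ≤ threshold d := by rw [hY]; exact min_le_left _ _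
  have hYe : Y ≤ threshold e := by rw [hY]; exact min_le_right _ _
  have hthd : s ^ 2 ≤ threshold d := by
    unfold threshold
    rw [← hs]
    exact le_mul_of_one_le_right (sq_nonneg s) (one_le_pow₀ (hle s a2))
  have hthe : t ^ 2 ≤ threshold e := by
    unfold threshold
    rw [← ht]
    exact le_mul_of_one_le_right (sq_nonneg t) (one_le_pow₀ (hle t b2))
  -- `Y ≥ (min s t)²`
  obtain ⟨r, hr⟩ : ∃ r : ℝ, r = min s t := ⟨_, rfl⟩
  have hrs : r ≤ s := by rw [hr]; exact min_le_left _ _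
  have hrt : r ≤ t := by rw [hr]; exact min_le_right _ _
  have hr16 : 16 ≤ r := by rw [hr]; exact le_min a3 b3
  have hYr : r ^ 2 ≤ Y := by
    rw [hY]
    apply le_min
    · exact (pow_le_pow_left₀ (by linarith) hrs 2).trans hthd
    · exact (pow_le_pow_left₀ (by linarith) hrt 2).trans hthe
  have hsr : s ≤ 2 * r := by
    rw [hr]
    rcases min_choice s t with h | h <;> rw [h] <;> linarith
  have htr : t ≤ 2 * r := by
    rw [hr]
    rcases min_choice s t with h | h <;> rw [h] <;> linarith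
  have hYY : Y₀ ≤ Y := by
    rw [hY]
    exact le_min (a1.trans hthd) (b1.trans hthe)
  have hY34 : 2 * r ≤ Y ^ (1 - 1 / 4 : ℝ) := by
    calc 2 * r ≤ r ^ (1 / 2 : ℝ) * r := by
          apply mul_le_mul_of_nonneg_right _ (by linarith)
          rw [← Real.sqrt_eq_rpow]
          apply Real.le_sqrt_of_sq_le
          linarith
      _ = (r ^ 2) ^ (1 - 1 / 4 : ℝ) := by
          rw [← Real.rpow_natCast r 2, ← Real.rpow_mul (by linarith)]
          nth_rewrite 2 [← Real.rpow_one r]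
          rw [← Real.rpow_add (by linarith)]
          congr 1
          norm_num
      _ ≤ Y ^ (1 - 1 / 4 : ℝ) := Real.rpow_le_rpow (by positivity) hYr (by norm_num)
  have key := hY₀ Y hYY d e hd he hne (by rw [← hs]; linarith) (by rw [← ht]; linarith)
    ⟨m, hm1, hm2.trans (by
      apply pow_le_pow_left₀ (by linarith [hle s a2])
      apply Real.log_le_log (by linarith)
      nlinarith), hm3⟩
  rw [← hY]
  refine key.trans ?_
  have hmono : ∀ (Z : ℝ) (f : ℤ), Y ≤ Z → (splitBelow Y f : ℝ) ≤ splitBelow Z f := by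
    intro Z f hZ
    apply Nat.cast_le.2
    unfold splitBelow
    apply Set.ncard_le_ncard
    · rintro p ⟨h1, h2, h3, h4⟩
      exact ⟨h1, h2.trans_le hZ, h3, h4⟩
    · apply (finite_toSet (range ⌈Z⌉₊)).subset
      rintro p ⟨_, hp, _⟩
      rw [mem_coe, mem_range]
      exact Nat.lt_ceil.2 hp
  have h1 := hmono _ d hYd
  have h2 := hmono _ e hYe
  unfold N
  linarith

/-- **Small split primes: every discriminant and its small twists.** -/
theorem result :
    (∀ (W : ℕ) (δ ε : ℝ), 0 < δ → 0 < ε → ∃ Y₀ : ℝ, ∀ Y : ℝ, Y₀ ≤ Y → ∀ d e : ℤ, NegFund d → NegFund e → d ≠ e →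
      Real.log |(d : ℝ)| ≤ Y ^ (1 - δ) → Real.log |(e : ℝ)| ≤ Y ^ (1 - δ) → Related (Real.log Y ^ W) d e →
      (1 - ε) * primesBelow Y ≤ 2 * ((splitBelow Y d : ℝ) + splitBelow Y e)) ∧
    (∀ (W : ℕ) (δ η : ℝ), 0 < δ → 0 < η → ∃ Y₀ : ℝ, ∀ Y : ℝ, Y₀ ≤ Y → ∀ F : Finset ℤ,
      (∀ d ∈ F, NegFund d ∧ Real.log |(d : ℝ)| ≤ Y ^ (1 - δ)) →
      (∀ d ∈ F, ∀ e ∈ F, d ≠ e → Related (Real.log Y ^ W) d e) →
      (∀ d ∈ F, ¬ |2 * (splitBelow Y d : ℝ) - primesBelow Y| ≤ η * primesBelow Y) → η ^ 2 * F.card ≤ 1) ∧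
    (∀ (W : ℕ) (ε : ℝ), 0 < ε → ∃ D₀ : ℝ, ∀ d e : ℤ, NegFund d → NegFund e → d ≠ e →
      D₀ ≤ |(d : ℝ)| → D₀ ≤ |(e : ℝ)| → Related (Real.log (Real.log |(d : ℝ)|) ^ W) d e →
      (1 - ε) * primesBelow (min (threshold d) (threshold e)) ≤ 2 * ((N d : ℝ) + N e)) :=
  ⟨fun W δ ε hδ hε => eventually_atTop.1 (part1 W δ ε hδ hε),
    fun W δ η hδ hη => eventually_atTop.1 (part2 W δ η hδ hη), fun W ε hε => part3 W ε hε⟩

end Pool.Agent.Results.MP_aaa0df_nt.RelatedDiscriminants
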