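import Pool.Agent.Q212.ShortInt

/-!
# Small split primes: all short intervals of discriminants

Let `A > 1` and `b ≥ 0`. We consider the primes below the threshold `(log |d|) ^ A (log log |d|) ^ b`; for `A = b = 2` this is the
threshold of the question.

(1) Let `0 ≤ θ ≤ 1` and `ε, η > 0`. There are `C` and `x₀` such that in EVERY interval `(x, x + H]` with `x ≥ x₀`,
`H ≥ (log x) ^ C` and `log H ≤ (log x) ^ θ` all but at most `H ^ (A / (2 A - θ) + η)` of the imaginary quadratic discriminants `d`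
with `|d|` in the interval are such that half of the primes below the threshold split in the field of discriminant `d`, up to
a relative error `ε`. (For `A = 2` the exponent is `2 / 3 + η` if only `H ≤ x`, and it is as close to `1 / 2` as we like if
`H` is a power of `log x` or `exp ((log x) ^ θ)` with a small `θ`.)

(2) Consequently, for every `B` and `η > 0` there are `C` and `x₀` such that for all `x ≥ x₀` and `(log x) ^ C ≤ H ≤ x` at most
`H ^ (2 / 3 + η)` discriminants `d` with `x < |d| ≤ x + H` have `N(d) ≤ B`.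

Proof. Large moments of products of sums of Jacobi symbols over disjoint blocks of primes, by the inequality of Pólya and
Vinogradov: the modules `Pool.Agent.H568.SP` of the starting library (used nowhere), to which the choice of the parameters
is added here.
-/

set_option autoImplicit false

namespace Pool.Agent.Results.MP_aaa0df_nt.ShortIntervals

open Finset Filter

/-- the fundamental discriminants `d < 0`, that is, the discriminants of the imaginary quadratic
fields (as in the frozen statement) -/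
def NegFund (d : ℤ) : Prop := d < 0 ∧ ((d % 4 = 1 ∧ Squarefree d) ∨
  ∃ m : ℤ, d = 4 * m ∧ (m % 4 = 2 ∨ m % 4 = 3) ∧ Squarefree m)

/-- the number of the primes `p < Y` which split in the field of discriminant `d` (`p` does not divide `d` and `d` is a
square modulo `4 p`, as in the frozen statement) -/
noncomputable def splitBelow (Y : ℝ) (d : ℤ) : ℕ := Set.ncard {p : ℕ | p.Prime ∧ (p : ℝ) < Y ∧
  ¬ (p : ℤ) ∣ d ∧ ∃ x : ℤ, (4 * (p : ℤ)) ∣ x ^ 2 - d}

/-- the number of all primes `p < Y` -/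
noncomputable def primesBelow (Y : ℝ) : ℕ := Set.ncard {p : ℕ | p.Prime ∧ (p : ℝ) < Y}

/-- the threshold `(log |d|) ^ A (log log |d|) ^ b` -/
noncomputable def threshold (A b : ℝ) (d : ℤ) : ℝ :=
  Real.log |(d : ℝ)| ^ A * Real.log (Real.log |(d : ℝ)|) ^ b

/-- `N(d)` of the question -/
noncomputable def N (d : ℤ) : ℕ :=
  splitBelow (Real.log |(d : ℝ)| ^ 2 * Real.log (Real.log |(d : ℝ)|) ^ 2) d

/-- half of the primes below the threshold split, up to a relative error `ε` -/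
def Half (A b ε : ℝ) (d : ℤ) : Prop :=
  |2 * (splitBelow (threshold A b d) d : ℝ) - primesBelow (threshold A b d)| ≤ ε * primesBelow (threshold A b d)

open Pool.Agent.H568.SP

lemma thr_eq (A b : ℝ) (n : ℕ) : threshold A b (-(n : ℤ)) = Yf A b (Real.log n) := by
  unfold threshold Yf
  push_cast
  rw [abs_neg, Nat.abs_cast]

lemma mod_four {d : ℤ} (h : NegFund d) : (d % 4 = 0 ∨ d % 4 = 1) ∧ d ≠ 0 := by
  obtain ⟨h0, h | ⟨m, h, -, -⟩⟩ := h
  · exact ⟨Or.inr h.1, by omega⟩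
  · exact ⟨Or.inl (by omega), by omega⟩

theorem part1 (A b θ ε η : ℝ) (hA : 1 < A) (hb : 0 ≤ b) (hθ : 0 ≤ θ) (hθ1 : θ ≤ 1) (hε : 0 < ε) (hη : 0 < η) :
    ∃ C : ℝ, 1 ≤ C ∧ ∃ x₀ : ℕ, ∀ x H : ℕ, x₀ ≤ x → Real.log x ^ C ≤ H → Real.log H ≤ Real.log x ^ θ →
      ({n : ℕ | x < n ∧ n ≤ x + H ∧ NegFund (-(n : ℤ)) ∧ ¬ Half A b ε (-(n : ℤ))}.ncard : ℝ) ≤
        (H : ℝ) ^ (A / (2 * A - θ) + η) := by
  classical
  obtain ⟨e, he⟩ : ∃ e : ℝ, e = min (ε / 2) 1 := ⟨_, rfl⟩
  have he0 : 0 < e := by rw [he]; exact lt_min (by positivity) one_pos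
  have heε : e ≤ ε / 2 := by rw [he]; exact min_le_left _ _
  have he1 : e ≤ 1 := by rw [he]; exact min_le_right _ _
  obtain ⟨C, hC1, hC⟩ := Pool.Agent.Q212.ShortInt.core A b θ e η hA hb hθ hθ1 he0 he1 hη
  obtain ⟨δ, hδ⟩ : ∃ δ : ℝ, δ = min (1 / 4) ((A - 1) / 4) := ⟨_, rfl⟩
  have hδ0 : 0 < δ := by
    rw [hδ]
    exact lt_min (by norm_num) (by linarith)
  have hδ4 : δ ≤ 1 / 4 := by rw [hδ]; exact min_le_left _ _
  have hδA : δ ≤ (A - 1) / 4 := by rw [hδ]; exact min_le_right _ _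
  have tlog : Tendsto (fun x : ℕ => Real.log (x : ℝ)) atTop atTop :=
    Real.tendsto_log_atTop.comp tendsto_natCast_atTop_atTop
  have e1 := tlog.eventually (ev_local A b δ e hA hb hδ0 (by linarith) hδ4 he0)
  obtain ⟨x₀, hx₀⟩ := eventually_atTop.1 ((hC.and e1).and ((tlog.eventually_ge_atTop 1).and (eventually_ge_atTop 2)))
  refine ⟨C, hC1, x₀, fun x H hx hH1 hH2 => ?_⟩
  obtain ⟨⟨h1, h2⟩, h3, h4⟩ := hx₀ x hx
  have hx0 : (0 : ℝ) < x := by exact_mod_cast (by omega : 0 < x)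
  have hH0 : (0 : ℝ) < H := lt_of_lt_of_le (by positivity) hH1
  have hHx : H ≤ x := by
    have h5 : Real.log H ≤ Real.log x := by
      refine hH2.trans ?_
      calc Real.log x ^ θ ≤ Real.log x ^ (1 : ℝ) := Real.rpow_le_rpow_of_exponent_le h3 hθ1
        _ = Real.log x := Real.rpow_one _
    have h6 : (H : ℝ) ≤ x := (Real.log_le_log_iff hH0 hx0).1 h5
    exact_mod_cast h6
  obtain ⟨D, hD⟩ : ∃ D : Finset ℕ, D = (Ioc x (x + H)).filter (fun n : ℕ =>
      NegFund (-(n : ℤ)) ∧ ¬ Half A b ε (-(n : ℤ))) := ⟨_, rfl⟩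
  have hset : {n : ℕ | x < n ∧ n ≤ x + H ∧ NegFund (-(n : ℤ)) ∧ ¬ Half A b ε (-(n : ℤ))} = (D : Set ℕ) := by
    ext n
    rw [hD, coe_filter, Set.mem_ofPred_eq, Set.mem_ofPred_eq, mem_Ioc, and_assoc]
  rw [hset, Set.ncard_coe_finset]
  apply h1 H hH1 hH2 D
  · rw [hD]
    exact filter_subset _ _
  · intro n hn
    rw [hD, mem_filter, mem_Ioc] at hn
    obtain ⟨⟨hn1, hn2⟩, hn3, hn4⟩ := hn
    by_contra hcon
    apply hn4
    push Not at hcon
    have hn0 : (0 : ℝ) < n := by exact_mod_cast (by omega : 0 < n)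
    have hs1 : Real.log x ≤ Real.log n := Real.log_le_log hx0 (by exact_mod_cast hn1.le)
    have hs2 : Real.log n ≤ Real.log x + 1 := by
      have h5 : (n : ℝ) ≤ 2 * x := by exact_mod_cast (by omega : n ≤ 2 * x)
      calc Real.log n ≤ Real.log (2 * x) := Real.log_le_log hn0 h5
        _ = Real.log 2 + Real.log x := Real.log_mul (by norm_num) hx0.ne'
        _ ≤ Real.log x + 1 := by
            have := Real.log_two_lt_d9
            linarith
    obtain ⟨k1, k2, k3, k4⟩ := h2 (Real.log n) hs1 hs2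
    obtain ⟨hm, hm0⟩ := mod_four hn3
    have habs : Real.log |((-(n : ℤ) : ℤ) : ℝ)| = Real.log n := by
      push_cast
      rw [abs_neg, Nat.abs_cast]
    have k5 := local_bound (-(n : ℤ)) hm hm0 k1 k2 k3 he0 hcon (by rw [habs]; exact k4)
    unfold Half splitBelow primesBelow
    rw [thr_eq]
    obtain ⟨a, ha⟩ : ∃ a : ℝ, a = (Set.ncard {p : ℕ | p.Prime ∧ (p : ℝ) < Yf A b (Real.log n) ∧
      ¬ (p : ℤ) ∣ (-(n : ℤ)) ∧ ∃ x : ℤ, (4 * (p : ℤ)) ∣ x ^ 2 - (-(n : ℤ))} : ℝ) := ⟨_, rfl⟩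
    obtain ⟨c, hc⟩ : ∃ c : ℝ, c = (Set.ncard {p : ℕ | p.Prime ∧ (p : ℝ) < Yf A b (Real.log n)} : ℝ) := ⟨_, rfl⟩
    rw [← ha, ← hc] at k5 ⊢
    have hc0 : 0 ≤ c := by rw [hc]; exact Nat.cast_nonneg _
    have k6 : e * c ≤ ε / 2 * c := mul_le_mul_of_nonneg_right heε hc0
    rw [abs_le] at k5 ⊢
    constructor
    · linarith [k5.1]
    · linarith [k5.2]

/-- **Small split primes in short intervals.** -/
theorem result :
    (∀ A b θ ε η : ℝ, 1 < A → 0 ≤ b → 0 ≤ θ → θ ≤ 1 → 0 < ε → 0 < η →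
      ∃ (C : ℝ) (x₀ : ℕ), ∀ x H : ℕ, x₀ ≤ x → Real.log x ^ C ≤ H → Real.log H ≤ Real.log x ^ θ →
        ({n : ℕ | x < n ∧ n ≤ x + H ∧ NegFund (-(n : ℤ)) ∧ ¬ Half A b ε (-(n : ℤ))}.ncard : ℝ) ≤
          (H : ℝ) ^ (A / (2 * A - θ) + η)) ∧
    (∀ (η : ℝ) (B : ℕ), 0 < η → ∃ (C : ℝ) (x₀ : ℕ), ∀ x H : ℕ, x₀ ≤ x → Real.log x ^ C ≤ H → H ≤ x →
        ({n : ℕ | x < n ∧ n ≤ x + H ∧ NegFund (-(n : ℤ)) ∧ N (-(n : ℤ)) ≤ B}.ncard : ℝ) ≤
          (H : ℝ) ^ (2 / 3 + η)) := by
  constructor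
  · intro A b θ ε η hA hb hθ hθ1 hε hη
    obtain ⟨C, -, x₀, h⟩ := part1 A b θ ε η hA hb hθ hθ1 hε hη
    exact ⟨C, x₀, h⟩
  · intro η B hη
    obtain ⟨C, hC1, x₀, h⟩ := part1 2 2 1 (1 / 2) η (by norm_num) (by norm_num) (by norm_num) le_rfl
      (by norm_num) hη
    have tlog : Tendsto (fun x : ℕ => Real.log (x : ℝ)) atTop atTop :=
      Real.tendsto_log_atTop.comp tendsto_natCast_atTop_atTop
    -- many primes below the threshold
    have hY : Tendsto (fun x : ℕ => Yf 2 2 (Real.log x)) atTop atTop := by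
      refine tendsto_atTop_mono' atTop ?_ ((tendsto_rpow_atTop (show (0 : ℝ) < 2 by norm_num)).comp tlog)
      filter_upwards [tlog.eventually_ge_atTop (Real.exp 1)] with x hx
      exact Yf_ge (by norm_num) ((Real.exp_pos 1).le.trans hx)
        (by rwa [Real.le_log_iff_exp_le (lt_of_lt_of_le (Real.exp_pos 1) hx)])
    have hprim := hY.eventually (primes_many (1 / 2) (by norm_num))
    have hbig := ((tendsto_rpow_atTop (show (0 : ℝ) < 1 - 1 / 2 by norm_num)).comp hY).eventually_gt_atTop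
      (4 * (B : ℝ))
    obtain ⟨x₁, hx₁⟩ := eventually_atTop.1 ((hprim.and hbig).and (eventually_ge_atTop 2))
    refine ⟨C, max x₀ x₁, fun x H hx hH1 hH2 => ?_⟩
    have hxx0 := (le_max_left _ _).trans hx
    have hxx1 := (le_max_right _ _).trans hx
    obtain ⟨-, hx2⟩ := hx₁ x hxx1
    have hx1 : (1 : ℝ) < x := by exact_mod_cast (by omega : 1 < x)
    have hlx : 0 < Real.log x := Real.log_pos hx1
    have hH0 : (0 : ℝ) < H := lt_of_lt_of_le (by positivity) hH1
    have hHx : Real.log H ≤ Real.log x ^ (1 : ℝ) := by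
      rw [Real.rpow_one]
      exact Real.log_le_log hH0 (by exact_mod_cast hH2)
    have key := h x H hxx0 hH1 hHx
    have h23 : (2 : ℝ) / (2 * 2 - 1) = 2 / 3 := by norm_num
    rw [h23] at key
    refine le_trans ?_ key
    apply Nat.cast_le.2
    apply Set.ncard_le_ncard
    · rintro n ⟨hn1, hn2, hn3, hn4⟩
      refine ⟨hn1, hn2, hn3, fun hcon => ?_⟩
      unfold Half at hcon
      rw [thr_eq] at hcon
      have hNN : N (-(n : ℤ)) = splitBelow (Yf 2 2 (Real.log n)) (-(n : ℤ)) := by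
        unfold N
        rw [← thr_eq]
        unfold threshold
        rw [Real.rpow_two, Real.rpow_two]
      rw [← hNN] at hcon
      obtain ⟨⟨k1, k2⟩, -⟩ := hx₁ n (by omega)
      have hM : ((PPf (Yf 2 2 (Real.log n))).card : ℝ) ≤ primesBelow (Yf 2 2 (Real.log n)) := by
        apply Nat.cast_le.2
        unfold primesBelow
        rw [← Set.ncard_coe_finset]
        apply Set.ncard_le_ncard
        · intro p hp
          rw [mem_coe, mem_PPf] at hp
          exact ⟨hp.2.1, hp.1⟩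
        · apply (finite_toSet (range ⌈Yf 2 2 (Real.log n)⌉₊)).subset
          rintro p ⟨_, hp⟩
          rw [mem_coe, mem_range]
          exact Nat.lt_ceil.2 hp
      have hB : (N (-(n : ℤ)) : ℝ) ≤ B := by exact_mod_cast hn4
      have hkey : (4 * (B : ℝ)) < primesBelow (Yf 2 2 (Real.log n)) := lt_of_lt_of_le k2 (k1.trans hM)
      have h5 := (abs_le.1 hcon).1
      have hB0 : (0 : ℝ) ≤ B := Nat.cast_nonneg _
      nlinarith
    · apply (finite_toSet (Ioc x (x + H))).subset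
      rintro n ⟨hn1, hn2, _⟩
      rw [mem_coe, mem_Ioc]
      exact ⟨hn1, hn2⟩

end Pool.Agent.Results.MP_aaa0df_nt.ShortIntervals
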